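import Pool.Agent.K7.H4.LS.Stmt
import Pool.Agent.R649.BT.Node

set_option autoImplicit false

/-!
# The maximum principle with boundary tori in the place of the crossings
-/

namespace Pool.Agent.K7.H4.LS

open Relation
open Pool.Agent.R649.BT hiding Block
open Pool.Agent.TH335.LS (Act Net)

universe u

/-- telescoping along a path -/
theorem path_prod {H : Type*} [Group H] {E C : Type} {e₁ e₂ : C → E} (F : E → H) :
    ∀ (l : List (C × Bool)) (a b : E), Path e₁ e₂ a l b →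
      (l.map fun k => (F (cOpp e₁ e₂ k))⁻¹ * F (cAt e₁ e₂ k)).prod = (F a)⁻¹ * F b
  | [], a, b, h => by
    have h' : a = b := h
    simp [h']
  | k :: l, a, b, h => by
    obtain ⟨h1, h2⟩ : cOpp e₁ e₂ k = a ∧ Path e₁ e₂ (cAt e₁ e₂ k) l b := h
    rw [List.map_cons, List.prod_cons, path_prod F l _ b h2, h1]
    group

section dir
variable {X : Type*} {H : Type*} [Group H] [CompleteLinearOrder X]

/-- At the point `r` the elements `u` and `v` move in the same direction. -/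
structure Dir (ρ : Act H X) (u v : H) (r : X) : Prop where
  le : ρ.f v r ≤ r ↔ ρ.f u r ≤ r
  ge : r ≤ ρ.f v r ↔ r ≤ ρ.f u r

theorem Dir.eq_of {ρ : Act H X} {u v : H} {r : X} (h : Dir ρ u v r) (hu : ρ.f u r = r) :
    ρ.f v r = r := le_antisymm (h.le.2 hu.le) (h.ge.2 hu.ge)

theorem Dir.symm {ρ : Act H X} {u v : H} {r : X} (h : Dir ρ u v r) : Dir ρ v u r :=
  ⟨h.le.symm, h.ge.symm⟩

theorem Dir.inv {ρ : Act H X} {u v : H} {r : X} (h : Dir ρ u v r) : Dir ρ u⁻¹ v⁻¹ r :=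
  ⟨by rw [ρ.inv_le, ρ.inv_le]; exact h.ge, by rw [ρ.le_inv, ρ.le_inv]; exact h.le⟩

theorem Dir.dual {ρ : Act H X} {u v : H} {r : X} (h : Dir ρ u v r) :
    Dir (X := Xᵒᵈ) ρ.dual u v r := ⟨h.ge, h.le⟩

/-- the network of one colour at a point -/
theorem net_of_dir (ρ : Act H X) {V E C : Type} {v₁ v₂ : C → V} {e₁ e₂ : C → E}
    {star : V → List (C × Bool)} (hmem : ∀ v k, k ∈ star v ↔ cAt v₁ v₂ k = v)
    (ev : V → H) (ee : E → H) {r : X}
    (hdir : ∀ c, Dir ρ ((ee (e₂ c))⁻¹ * ee (e₁ c)) ((ev (v₁ c))⁻¹ * ev (v₂ c)) r) :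
    Net ρ star (cOpp v₁ v₂) (fun k => (ee (cOpp e₁ e₂ k))⁻¹ * ee (cAt e₁ e₂ k))
      (fun n => ρ.f (ev n) r) r := by
  have hk : ∀ k : C × Bool, Dir ρ ((ee (cOpp e₁ e₂ k))⁻¹ * ee (cAt e₁ e₂ k))
      ((ev (cAt v₁ v₂ k))⁻¹ * ev (cOpp v₁ v₂ k)) r := by
    rintro ⟨c, s⟩
    cases s
    · exact hdir c
    · have h := (hdir c).inv
      simp only [mul_inv_rev, inv_inv] at h
      exact h
  refine ⟨fun n k hkn h => ?_, fun n k hkn h => ?_, fun n k hkn h => ?_⟩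
  · have hat := (hmem n k).mp hkn
    refine (hk k).le.1 ?_
    rw [ρ.inv_mul_le, hat]; exact h
  · have hat := (hmem n k).mp hkn
    refine (hk k).ge.1 ?_
    rw [ρ.le_inv_mul, hat]; exact h
  · have hat := (hmem n k).mp hkn
    have h1 := (hk k).eq_of h
    rw [ρ.inv_mul_eq, hat] at h1
    exact h1

/-- One colour at one point: the version of `Alt.colour_ports` with directions. -/
theorem colour_ports' (ρ : Act H X)
    {V E C : Type} [Finite V] {v₁ v₂ : C → V} {e₁ e₂ : C → E} {g vL vR : V} {eg eL eR : E}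
    {star : V → List (C × Bool)} (hc : Colour v₁ v₂ e₁ e₂ g vL vR eg eL eR star)
    (ev : V → H) (ee : E → H) (r : X)
    (hdir : ∀ c, Dir ρ ((ee (e₂ c))⁻¹ * ee (e₁ c)) ((ev (v₁ c))⁻¹ * ev (v₂ c)) r) :
    (ρ.f (ev g) r ≤ ρ.f (ev vL) r → r ≤ ρ.f ((ee eL)⁻¹ * ee eg) r →
      ρ.f (ev g) r ≤ ρ.f (ev vR) r) ∧
    (ρ.f (ev g) r ≤ ρ.f (ev vR) r → r ≤ ρ.f ((ee eg)⁻¹ * ee eR) r →
      ρ.f (ev g) r ≤ ρ.f (ev vL) r) ∧
    (ρ.f (ev vL) r ≤ ρ.f (ev g) r → ρ.f (ev vR) r ≤ ρ.f (ev g) r → ∀ n,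
      ρ.f (ev n) r ≤ ρ.f (ev g) r) := by
  have net := net_of_dir ρ hc.mem ev ee hdir
  have hstep : ∀ a b, Adj v₁ v₂ a b → ∃ k ∈ star a, cOpp v₁ v₂ k = b := by
    rintro a b ⟨k, h1, h2⟩
    exact ⟨k, (hc.mem a k).mpr h1, h2⟩
  have conn : ∀ n, ReflTransGen (fun a b => ∃ k ∈ star a, cOpp v₁ v₂ k = b) n g :=
    fun n => ReflTransGen.mono (fun a b h => hstep a b h) _ _ (hc.conn n)
  have inner : ∀ n, n ≠ g → n ≠ vL → n ≠ vR →
      ((star n).map fun k => (ee (cOpp e₁ e₂ k))⁻¹ * ee (cAt e₁ e₂ k)).prod = 1 := by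
    intro n h1 h2 h3
    obtain ⟨a, ha⟩ := hc.inner n h1 h2 h3
    rw [path_prod ee _ _ _ ha, inv_mul_cancel]
  have adj_symm : ∀ a b, Adj v₁ v₂ a b → Adj v₁ v₂ b a := by
    rintro a b ⟨⟨c, s⟩, h1, h2⟩
    refine ⟨(c, !s), ?_, ?_⟩ <;> cases s <;> simp_all [cAt, cOpp]
  refine ⟨fun h1 h2 => ?_, fun h1 h2 => ?_, fun h1 h2 n => ?_⟩
  · refine net.port (p := vL) (q := vR) ρ inner conn ?_ ?_ h1
    · exact ReflTransGen.mono (fun a b h => ⟨hstep a b h.1, h.2.2⟩) _ _ hc.link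
    · rw [path_prod ee _ _ _ hc.left]; exact h2
  · refine net.port (p := vR) (q := vL) ρ (fun n h3 h4 h5 => inner n h3 h5 h4) conn ?_ ?_ h1
    · have h3 : ReflTransGen (fun a b => Adj v₁ v₂ a b ∧ a ≠ g ∧ b ≠ g) vR vL := by
        have h4 := ReflTransGen.swap _ _ hc.link
        exact ReflTransGen.mono (fun a b h => ⟨adj_symm _ _ h.1, h.2.2, h.2.1⟩) _ _ h4
      exact ReflTransGen.mono (fun a b h => ⟨hstep a b h.1, h.2.2⟩) _ _ h3
    · rw [path_prod ee _ _ _ hc.right]; exact h2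
  · exact net.le_ground ρ inner conn h1 h2 n

end dir

section enc

/-- The pointwise statements, from the relations in a group acting on a complete linear order: the
version of `Alt.esys_of_diagram` with directions. -/
theorem esys_of_strip {X H : Type*} [Group H] [CompleteLinearOrder X] (ρ : Act H X)
    (D : Strip) (W : D.W → H) (B : D.B → H) (m : H)
    (hdir : ∀ r c, Dir ρ ((B (D.b₂ c))⁻¹ * B (D.b₁ c)) ((W (D.w₁ c))⁻¹ * W (D.w₂ c)) r)
    (hx : m * ((W D.top)⁻¹ * W D.wL) * m⁻¹ * ((W D.top)⁻¹ * W D.wR) = 1)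
    (hy : m * ((B D.bL)⁻¹ * B D.bot) * m⁻¹ * ((B D.bR)⁻¹ * B D.bot) = 1) :
    ESys (ρ.f ((W D.top)⁻¹ * W D.wL)) (ρ.f ((B D.bL)⁻¹ * B D.bot))
      (ρ.f ((W D.top)⁻¹ * W D.wR)) (ρ.f ((B D.bR)⁻¹ * B D.bot)) (ρ.f m)
      (ρ.f (((B D.bR)⁻¹ * B D.bot)⁻¹ * ((W D.top)⁻¹ * W D.wR) * m))
      (ρ.f (((W D.top)⁻¹ * W D.wR) * ((B D.bR)⁻¹ * B D.bot)⁻¹ * m)) ∧
    ∀ r, ρ.f ((W D.top)⁻¹ * W D.wL) r = r → ρ.f ((B D.bL)⁻¹ * B D.bot) r = r →
      ρ.f ((W D.top)⁻¹ * W D.wR) r = r → ρ.f ((B D.bR)⁻¹ * B D.bot) r = r →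
      (∀ n, ρ.f (W n) r = ρ.f (W D.top) r) ∧ (∀ n, ρ.f (B n) r = ρ.f (B D.bot) r) := by
  have := D.finW
  have := D.finB
  have hdirB : ∀ r c, Dir ρ ((W (D.w₂ c))⁻¹ * W (D.w₁ c)) ((B (D.b₁ c))⁻¹ * B (D.b₂ c)) r := by
    intro r c
    have h1 := (hdir r c).symm.inv
    simp only [mul_inv_rev, inv_inv] at h1
    exact h1
  have cW := fun r => colour_ports' ρ D.white W B r (hdir r)
  have cB := fun r => colour_ports' ρ D.black B W r (hdirB r)
  have cW' := fun r => colour_ports' ρ.dual D.white W B r (fun c => (hdir r c).dual)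
  have cB' := fun r => colour_ports' ρ.dual D.black B W r (fun c => (hdirB r c).dual)
  set xL := (W D.top)⁻¹ * W D.wL with hxL
  set yL := (B D.bL)⁻¹ * B D.bot with hyL
  set xR := (W D.top)⁻¹ * W D.wR with hxR
  set yR := (B D.bR)⁻¹ * B D.bot with hyR
  set t := yR⁻¹ * xR * m with htt
  set t₁ := xR * yR⁻¹ * m with htt1
  -- reformulations
  have eW1 : (W D.wL)⁻¹ * W D.top = xL⁻¹ := by rw [hxL]; group
  have eW2 : (B D.bot)⁻¹ * B D.bR = yR⁻¹ := by rw [hyR]; group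
  have hmx : xR * (m * xL) = m := by
    have h2 : m * xL * m⁻¹ = xR⁻¹ := mul_eq_one_iff_eq_inv.mp hx
    have h3 : m * xL = xR⁻¹ * m := by rw [← h2]; group
    rw [h3]; group
  have hmy : yR * (m * yL) = m := by
    have h2 : m * yL * m⁻¹ = yR⁻¹ := mul_eq_one_iff_eq_inv.mp hy
    have h3 : m * yL = yR⁻¹ * m := by rw [← h2]; group
    rw [h3]; group
  refine ⟨?_, ?_⟩
  · refine ⟨?_, ?_, ?_, ?_, ?_, ?_, ?_, ?_⟩
    · intro r
      rw [← ρ.mul, ← ρ.mul, mul_assoc, hmx]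
    · intro r
      rw [← ρ.mul, ← ρ.mul, mul_assoc, hmy]
    · intro r h1 h2
      constructor
      · exact (ρ.le_inv_mul _ _ _).mpr ((cW r).1 ((ρ.le_inv_mul _ _ _).mp h1) h2)
      · refine (ρ.le_inv_mul _ _ _).mpr ((cB' r).1 ((ρ.le_inv_mul _ _ _).mp h2) ?_)
        show ρ.f ((W D.wL)⁻¹ * W D.top) r ≤ r
        rw [eW1, ρ.inv_le]; exact h1
    · intro r h1 h2
      constructor
      · exact (ρ.inv_mul_le _ _ _).mpr ((cW' r).1 ((ρ.inv_mul_le _ _ _).mp h1) h2)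
      · refine (ρ.inv_mul_le _ _ _).mpr ((cB r).1 ((ρ.inv_mul_le _ _ _).mp h2) ?_)
        rw [eW1, ρ.le_inv]; exact h1
    · intro r h1 h2
      constructor
      · refine (ρ.le_inv_mul _ _ _).mpr ((cW r).2.1 ((ρ.le_inv_mul _ _ _).mp h1) ?_)
        rw [eW2, ρ.le_inv]; exact h2
      · exact (ρ.inv_mul_le _ _ _).mpr ((cB r).2.1 ((ρ.inv_mul_le _ _ _).mp h2) h1)
    · intro r h1 h2
      constructor
      · refine (ρ.inv_mul_le _ _ _).mpr ((cW' r).2.1 ((ρ.inv_mul_le _ _ _).mp h1) ?_)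
        show ρ.f ((B D.bot)⁻¹ * B D.bR) r ≤ r
        rw [eW2, ρ.inv_le]; exact h2
      · exact (ρ.le_inv_mul _ _ _).mpr ((cB' r).2.1 ((ρ.le_inv_mul _ _ _).mp h2) h1)
    · intro r
      rw [← ρ.mul, ← ρ.mul]
      congr 2
      rw [htt]; group
    · intro r s hs
      rw [htt1, ρ.mul, ρ.mul, ← hs, ρ.inv_self]
  · intro r t1 t2 t4 t5
    rw [hxL, ρ.inv_mul_eq] at t1
    rw [hyL, ρ.inv_mul_eq] at t2
    rw [hxR, ρ.inv_mul_eq] at t4
    rw [hyR, ρ.inv_mul_eq] at t5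
    refine ⟨fun n => le_antisymm ?_ ?_, fun n => le_antisymm ?_ ?_⟩
    · exact (cW r).2.2 t1.le t4.le n
    · exact (cW' r).2.2 t1.ge t4.ge n
    · exact (cB r).2.2 t2.ge t5.ge n
    · exact (cB' r).2.2 t2.le t5.le n

end enc

/-- The properties of a block that are used below (with strict caps if `strict` holds). -/
structure BlockS {m : ℕ} {γ : Type} (R : Set (FreeGroup γ)) (x e : Fin (m + 1) → FreeGroup γ)
    (strict : Prop) : Prop where
  comm : ∀ i, Commute (PresentedGroup.mk R (x i)) (PresentedGroup.mk R (e i))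
  opn : ∀ (X : Type u) [CompleteLinearOrder X] (ρ : PresentedGroup R →* (X ≃o X)),
    (∀ i, i ≠ 0 → Cap (ρ (PresentedGroup.mk R (x i))) (ρ (PresentedGroup.mk R (e i)))) →
    (strict → ∀ i, i ≠ 0 → SCap (ρ (PresentedGroup.mk R (x i)))
      (ρ (PresentedGroup.mk R (e i)))) → ∀ p,
      ρ (PresentedGroup.mk R (x 0)) p = p → ρ (PresentedGroup.mk R (e 0)) p = p →
        ∀ g, ρ g p = p
  closed : ∀ (X : Type u) [CompleteLinearOrder X] (ρ : PresentedGroup R →* (X ≃o X)),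
    Cap (ρ (PresentedGroup.mk R (x 0))) (ρ (PresentedGroup.mk R (e 0))) →
    (∀ i, i ≠ 0 → Cap (ρ (PresentedGroup.mk R (x i))) (ρ (PresentedGroup.mk R (e i)))) →
    (strict → ∀ i, i ≠ 0 → SCap (ρ (PresentedGroup.mk R (x i)))
      (ρ (PresentedGroup.mk R (e i)))) → ∀ g p, ρ g p = p

theorem BlockS.of_ok {m : ℕ} {γ : Type} {R : Set (FreeGroup γ)} {x e : Fin (m + 1) → FreeGroup γ}
    {s s' : Prop} (h : BlockOK.{u} R x e s) (hs : s → s') : BlockS.{u} R x e s' :=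
  ⟨h.comm, fun X _ ρ h1 _ => h.opn X ρ h1, fun X _ ρ h0 h1 h2 => h.closed X ρ h0 h1
    fun k => h2 (hs k)⟩

/-- The action of a presented group. -/
def act {γ : Type} {R : Set (FreeGroup γ)} {X : Type u} [CompleteLinearOrder X]
    (ρ : PresentedGroup R →* (X ≃o X)) : Act (PresentedGroup R) X where
  f := ρ
  one := fun r => by rw [map_one]; rfl
  mul := fun g h r => by rw [map_mul]; rfl

theorem dir_of_scap {G : Type*} [Group G] {X : Type u} [CompleteLinearOrder X]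
    (ρ : Act G X) {a b : G} (h : SCap (ρ.f a) (ρ.f b⁻¹)) (r : X) : Dir ρ a b r := by
  have k1 : ρ.f b⁻¹ r ≤ r ↔ r ≤ ρ.f b r := ρ.inv_le b r
  have k2 : r ≤ ρ.f b⁻¹ r ↔ ρ.f b r ≤ r := ρ.le_inv b r
  constructor
  · rw [← k2]
    constructor
    · intro h1
      by_contra h2
      exact absurd (h.up r (not_le.mp h2)) (not_lt.mpr h1)
    · intro h1
      rcases eq_or_lt_of_le h1 with h2 | h2
      · exact (h.fix r h2).ge
      · exact (h.down r h2).le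
  · rw [← k1]
    constructor
    · intro h1
      by_contra h2
      exact absurd (h.down r (not_le.mp h2)) (not_lt.mpr h1)
    · intro h1
      rcases eq_or_lt_of_le h1 with h2 | h2
      · exact (h.fix r h2.symm).le
      · exact (h.up r h2).le

end Pool.Agent.K7.H4.LS
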