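import Pool.Agent.K7.H4.LS.Net

set_option autoImplicit false

/-!
# The blocks `net` and `enc`
-/

namespace Pool.Agent.K7.H4.LS

open Relation
open Pool.Agent.R649.BT hiding Block
open Pool.Agent.TH335.LS (Act Net)

universe u

namespace NetOK

variable (D : Closed)

/-- The class of a word. -/
abbrev mkn : FreeGroup D.Gen →* PresentedGroup D.relators := PresentedGroup.mk D.relators

theorem one {w : FreeGroup D.Gen} (h : w ∈ D.relators) : mkn D w = 1 :=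
  PresentedGroup.one_of_mem h

theorem comm (c : Fin (D.n + 1)) : Commute (mkn D (D.u c)) (mkn D (D.v c)) := by
  have h := one D (w := D.u c * D.v c * (D.u c)⁻¹ * (D.v c)⁻¹) (Or.inr (Or.inr ⟨c, rfl⟩))
  rw [map_mul, map_mul, map_mul, map_inv, map_inv, mul_inv_eq_one, mul_inv_eq_iff_eq_mul] at h
  exact h

section
variable {X H : Type*} [Group H] [CompleteLinearOrder X] (ρ : Act H X)

/-- If all crossings are balanced at `r`, then the white regions have equal heights. -/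
theorem white_le (W : D.W → H) (B : D.B → H) {r : X}
    (hdir : ∀ c, Dir ρ ((B (D.b₂ c))⁻¹ * B (D.b₁ c)) ((W (D.w₁ c))⁻¹ * W (D.w₂ c)) r) (n : D.W) :
    ρ.f (W n) r ≤ ρ.f (W D.g) r := by
  have := D.finW
  have net := net_of_dir ρ D.memW W B hdir
  refine net.le_ground ρ (g := D.g) (p := D.g) (q := D.g) (fun n _ _ _ => ?_) (fun n => ?_)
    le_rfl le_rfl n
  · obtain ⟨a, ha⟩ := D.faceW n
    rw [path_prod B _ _ _ ha, inv_mul_cancel]
  · refine ReflTransGen.mono (fun a b h => ?_) _ _ (D.conn n)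
    obtain ⟨k, h1, h2⟩ := h
    exact ⟨k, (D.memW a k).mpr h1, h2⟩

/-- If all crossings `≠ 0` are balanced at `r` and the one `0` is capped, then the black regions
have at most the height of `h`. -/
theorem black_le (W : D.W → H) (B : D.B → H) {r : X}
    (hdir : ∀ c, c ≠ 0 → Dir ρ ((B (D.b₂ c))⁻¹ * B (D.b₁ c)) ((W (D.w₁ c))⁻¹ * W (D.w₂ c)) r)
    (h0 : ρ.f ((B (D.b₂ 0))⁻¹ * B (D.b₁ 0)) r ≤ r → ρ.f ((W (D.w₁ 0))⁻¹ * W (D.w₂ 0)) r ≤ r)
    (h0' : r ≤ ρ.f ((B (D.b₂ 0))⁻¹ * B (D.b₁ 0)) r → r ≤ ρ.f ((W (D.w₁ 0))⁻¹ * W (D.w₂ 0)) r)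
    (n : D.B) : ρ.f (B n) r ≤ ρ.f (B D.h) r := by
  have := D.finB
  obtain ⟨M, hM⟩ : ∃ M, ∀ n, ρ.f (B n) r ≤ ρ.f (B M) r := by
    have : Nonempty D.B := ⟨D.h⟩
    exact Finite.exists_max fun n => ρ.f (B n) r
  refine (hM n).trans ?_
  -- currents at the corners
  have cur : ∀ k : Fin (D.n + 1) × Bool,
      ρ.f (B (cOpp D.b₁ D.b₂ k)) r ≤ ρ.f (B (cAt D.b₁ D.b₂ k)) r →
        ρ.f ((W (cOpp D.w₁ D.w₂ k))⁻¹ * W (cAt D.w₁ D.w₂ k)) r ≤ r := by
    rintro ⟨c, s⟩ hk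
    cases s
    · -- corner 1: `b₂ ≤ b₁`: `r ≤ u r`
      change ρ.f (B (D.b₂ c)) r ≤ ρ.f (B (D.b₁ c)) r at hk
      show ρ.f ((W (D.w₂ c))⁻¹ * W (D.w₁ c)) r ≤ r
      have e1 : r ≤ ρ.f ((B (D.b₂ c))⁻¹ * B (D.b₁ c)) r := (ρ.le_inv_mul _ _ _).mpr hk
      have e2 : r ≤ ρ.f ((W (D.w₁ c))⁻¹ * W (D.w₂ c)) r := by
        by_cases hc : c = 0
        · subst hc; exact h0' e1
        · exact (hdir c hc).ge.mpr e1
      exact (ρ.inv_mul_le _ _ _).mpr ((ρ.le_inv_mul _ _ _).mp e2)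
    · change ρ.f (B (D.b₁ c)) r ≤ ρ.f (B (D.b₂ c)) r at hk
      show ρ.f ((W (D.w₁ c))⁻¹ * W (D.w₂ c)) r ≤ r
      have e1 : ρ.f ((B (D.b₂ c))⁻¹ * B (D.b₁ c)) r ≤ r := (ρ.inv_mul_le _ _ _).mpr hk
      by_cases hc : c = 0
      · subst hc; exact h0 e1
      · exact (hdir c hc).le.mpr e1
  have eqv : ∀ k : Fin (D.n + 1) × Bool, k.1 ≠ 0 →
      ρ.f ((W (cOpp D.w₁ D.w₂ k))⁻¹ * W (cAt D.w₁ D.w₂ k)) r = r →
        ρ.f (B (cOpp D.b₁ D.b₂ k)) r = ρ.f (B (cAt D.b₁ D.b₂ k)) r := by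
    rintro ⟨c, s⟩ hc hk
    change c ≠ 0 at hc
    cases s
    · change ρ.f ((W (D.w₂ c))⁻¹ * W (D.w₁ c)) r = r at hk
      show ρ.f (B (D.b₂ c)) r = ρ.f (B (D.b₁ c)) r
      rw [ρ.inv_mul_eq] at hk
      have e2 : ρ.f ((W (D.w₁ c))⁻¹ * W (D.w₂ c)) r = r := (ρ.inv_mul_eq _ _ _).mpr hk.symm
      have e1 := (hdir c hc).symm.eq_of e2
      exact ((ρ.inv_mul_eq _ _ _).mp e1).symm
    · change ρ.f ((W (D.w₁ c))⁻¹ * W (D.w₂ c)) r = r at hk
      show ρ.f (B (D.b₁ c)) r = ρ.f (B (D.b₂ c)) r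
      have e1 := (hdir c hc).symm.eq_of hk
      exact (ρ.inv_mul_eq _ _ _).mp e1
  have step : ∀ a, ρ.f (B a) r = ρ.f (B M) r → ∀ k : Fin (D.n + 1) × Bool, k.1 ≠ 0 →
      cAt D.b₁ D.b₂ k = a → ρ.f (B (cOpp D.b₁ D.b₂ k)) r = ρ.f (B M) r := by
    intro a ha k hk0 hka
    obtain ⟨a', ha'⟩ := D.faceB a
    have hprod : ((D.starB a).map
        fun k => (W (cOpp D.w₁ D.w₂ k))⁻¹ * W (cAt D.w₁ D.w₂ k)).prod = 1 := by
      rw [path_prod W _ _ _ ha', inv_mul_cancel]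
    have hall := ρ.list_eq ((D.starB a).map
      fun k => (W (cOpp D.w₁ D.w₂ k))⁻¹ * W (cAt D.w₁ D.w₂ k)) (r := r) (by
        intro g hg
        obtain ⟨k', hk', rfl⟩ := List.mem_map.mp hg
        have h1 := (D.memB a k').mp hk'
        refine cur k' ?_
        rw [h1, ha]; exact hM _) (by rw [hprod, ρ.one])
    have h2 := hall _ (List.mem_map_of_mem ((D.memB a k).mpr hka))
    rw [eqv k hk0 h2, hka, ha]
  have main : ∀ n, ReflTransGen (fun a b => ∃ k : Fin (D.n + 1) × Bool, k.1 ≠ 0 ∧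
      cAt D.b₁ D.b₂ k = a ∧ cOpp D.b₁ D.b₂ k = b) n D.h → ρ.f (B n) r = ρ.f (B M) r →
      ρ.f (B D.h) r = ρ.f (B M) r := by
    intro n hn
    induction hn using ReflTransGen.head_induction_on with
    | refl => exact id
    | @head a b hab _ ih =>
      intro ha
      obtain ⟨k, hk0, hk1, rfl⟩ := hab
      exact ih (step a ha k hk0 hk1)
  exact (main M (D.conn₀ M) rfl).ge

end

theorem dirs {X : Type u} [CompleteLinearOrder X] (ρ : PresentedGroup D.relators →* (X ≃o X))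
    {c : Fin (D.n + 1)} (h : SCap (ρ (mkn D (D.u c))) (ρ (mkn D (D.v c)⁻¹))) (r : X) :
    Dir (act ρ) (mkn D (D.u c)) (mkn D (D.v c)) r := by
  rw [map_inv] at h
  exact dir_of_scap (act ρ) h r

theorem fixAll {X : Type u} [CompleteLinearOrder X] (ρ : PresentedGroup D.relators →* (X ≃o X))
    {r : X} (hw : ∀ n, ρ (mkn D (D.w n)) r = ρ (mkn D (D.w D.g)) r)
    (hb : ∀ n, ρ (mkn D (D.b n)) r = ρ (mkn D (D.b D.h)) r) (g : PresentedGroup D.relators) :
    ρ g r = r := by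
  have hw0 : mkn D (D.w D.g) = 1 := one D (Or.inl rfl)
  have hb0 : mkn D (D.b D.h) = 1 := one D (Or.inr (Or.inl rfl))
  refine fix_gens ρ ?_ g
  rintro (v | v)
  · refine (hw v).trans ?_
    rw [hw0, map_one]; rfl
  · refine (hb v).trans ?_
    rw [hb0, map_one]; rfl

theorem eu (c : Fin (D.n + 1)) :
    mkn D (D.u c) = (mkn D (D.b (D.b₂ c)))⁻¹ * mkn D (D.b (D.b₁ c)) := by
  rw [Closed.u, map_mul, map_inv]

theorem ev (c : Fin (D.n + 1)) :
    mkn D (D.v c) = (mkn D (D.w (D.w₁ c)))⁻¹ * mkn D (D.w (D.w₂ c)) := by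
  rw [Closed.v, map_mul, map_inv]

/-- the statement for all regions, at one point -/
theorem all_of {X : Type u} [CompleteLinearOrder X] (ρ : PresentedGroup D.relators →* (X ≃o X))
    {r : X} (hd : ∀ c, c ≠ 0 → Dir (act ρ) (mkn D (D.u c)) (mkn D (D.v c)) r)
    (h1 : ρ (mkn D (D.u 0)) r ≤ r → ρ (mkn D (D.v 0)) r ≤ r)
    (h2 : r ≤ ρ (mkn D (D.u 0)) r → r ≤ ρ (mkn D (D.v 0)) r)
    (g : PresentedGroup D.relators) : ρ g r = r := by
  have hd' : ∀ c, c ≠ 0 → Dir (act ρ) ((mkn D (D.b (D.b₂ c)))⁻¹ * mkn D (D.b (D.b₁ c)))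
      ((mkn D (D.w (D.w₁ c)))⁻¹ * mkn D (D.w (D.w₂ c))) r := by
    intro c hc
    rw [← eu, ← ev]; exact hd c hc
  have hbe : ∀ n, ρ (mkn D (D.b n)) r = ρ (mkn D (D.b D.h)) r := by
    intro n
    refine le_antisymm ?_ ?_
    · refine black_le D (act ρ) (fun n => mkn D (D.w n)) (fun n => mkn D (D.b n)) hd' ?_ ?_ n
      · rw [← eu, ← ev]; exact h1
      · rw [← eu, ← ev]; exact h2
    · refine black_le (X := Xᵒᵈ) D (act ρ).dual (fun n => mkn D (D.w n))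
        (fun n => mkn D (D.b n)) (fun c hc => (hd' c hc).dual) ?_ ?_ n
      · rw [← eu, ← ev]; exact h2
      · rw [← eu, ← ev]; exact h1
  have hu : ∀ c, ρ (mkn D (D.u c)) r = r := by
    intro c
    rw [eu]
    refine ((act ρ).inv_mul_eq _ _ r).mpr ?_
    show ρ (mkn D (D.b _)) r = ρ (mkn D (D.b _)) r
    rw [hbe, hbe (D.b₂ c)]
  have hv : ∀ c, ρ (mkn D (D.v c)) r = r := by
    intro c
    by_cases hc : c = 0
    · subst hc
      exact le_antisymm (h1 (hu 0).le) (h2 (hu 0).ge)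
    · exact (hd c hc).eq_of (hu c)
  have hdall : ∀ c, Dir (act ρ) ((mkn D (D.b (D.b₂ c)))⁻¹ * mkn D (D.b (D.b₁ c)))
      ((mkn D (D.w (D.w₁ c)))⁻¹ * mkn D (D.w (D.w₂ c))) r := by
    intro c
    rw [← eu, ← ev]
    have a1 : (act ρ).f (mkn D (D.u c)) r = r := hu c
    have a2 : (act ρ).f (mkn D (D.v c)) r = r := hv c
    exact ⟨by rw [a1, a2], by rw [a1, a2]⟩
  refine fixAll D ρ (fun n => le_antisymm ?_ ?_) hbe g
  · exact white_le D (act ρ) (fun n => mkn D (D.w n)) (fun n => mkn D (D.b n)) hdall n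
  · exact white_le (X := Xᵒᵈ) D (act ρ).dual (fun n => mkn D (D.w n))
      (fun n => mkn D (D.b n)) (fun c => (hdall c).dual) n

theorem ok : BlockS.{u} (m := D.n) (net D).rel (net D).x (net D).e True := by
  refine ⟨fun c => ?_, fun X _ ρ _ hs p hx he => ?_, fun X _ ρ h0 _ hs g p => ?_⟩
  · show Commute (mkn D (D.u c)) (mkn D (D.v c)⁻¹)
    rw [map_inv]
    exact (comm D c).inv_right
  · change ρ (mkn D (D.u 0)) p = p at hx
    change ρ (mkn D (D.v 0)⁻¹) p = p at he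
    have he' : ρ (mkn D (D.v 0)) p = p := by
      rw [map_inv, map_inv] at he
      exact fixg he
    refine all_of D ρ (fun c hc => dirs D ρ (hs trivial c hc) p) ?_ ?_
    · intro _; exact he'.le
    · intro _; exact he'.ge
  · have h0' : Cap (ρ (mkn D (D.u 0))) (ρ (mkn D (D.v 0)⁻¹)) := h0
    have k1 : ρ (mkn D (D.v 0)⁻¹) p ≤ p ↔ p ≤ ρ (mkn D (D.v 0)) p := by
      rw [map_inv]; exact (act ρ).inv_le _ p
    have k2 : p ≤ ρ (mkn D (D.v 0)⁻¹) p ↔ ρ (mkn D (D.v 0)) p ≤ p := by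
      rw [map_inv]; exact (act ρ).le_inv _ p
    refine all_of D ρ (fun c hc => dirs D ρ (hs trivial c hc) p) ?_ ?_ g
    · intro h1
      rw [← k2]
      rcases eq_or_lt_of_le h1 with h2 | h2
      · exact (h0'.fix p h2).ge
      · exact h0'.down p h2
    · intro h1
      rw [← k1]
      rcases eq_or_lt_of_le h1 with h2 | h2
      · exact (h0'.fix p h2.symm).le
      · exact h0'.up p h2

end NetOK

namespace EncOK

variable (D : Strip)

/-- The class of a word. -/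
abbrev mke : FreeGroup D.Gen →* PresentedGroup D.relators := PresentedGroup.mk D.relators

theorem one {w : FreeGroup D.Gen} (h : w ∈ D.relators) : mke D w = 1 :=
  PresentedGroup.one_of_mem h

theorem comm (c : Fin D.m) : Commute (mke D (D.u c)) (mke D (D.v c)) := by
  have h := one D (w := D.u c * D.v c * (D.u c)⁻¹ * (D.v c)⁻¹)
    (Or.inr (Or.inr (Or.inl ⟨c, rfl⟩)))
  rw [map_mul, map_mul, map_mul, map_inv, map_inv, mul_inv_eq_one, mul_inv_eq_iff_eq_mul] at h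
  exact h

theorem main {X : Type u} [CompleteLinearOrder X]
    (ρ : PresentedGroup D.relators →* (X ≃o X))
    (hs : ∀ c : Fin D.m, SCap (ρ (mke D (D.u c))) (ρ (mke D (D.v c)⁻¹))) :
    ESys (ρ (mke D D.xL)) (ρ (mke D D.yL)) (ρ (mke D D.xR)) (ρ (mke D D.yR)) (ρ (mke D D.s))
      (ρ (mke D D.t)) (ρ (mke D D.t₁)) ∧
    ∀ r, ρ (mke D D.xL) r = r → ρ (mke D D.yL) r = r → ρ (mke D D.xR) r = r →
      ρ (mke D D.yR) r = r → ρ (mke D D.s) r = r → ∀ g, ρ g r = r := by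
  have key := esys_of_strip (act ρ) D (fun v => mke D (D.w v)) (fun v => mke D (D.b v))
    (mke D D.s) ?_ ?_ ?_
  · have exL : mke D D.xL = (mke D (D.w D.top))⁻¹ * mke D (D.w D.wL) := by
      rw [Strip.xL, map_mul, map_inv]
    have eyL : mke D D.yL = (mke D (D.b D.bL))⁻¹ * mke D (D.b D.bot) := by
      rw [Strip.yL, map_mul, map_inv]
    have exR : mke D D.xR = (mke D (D.w D.top))⁻¹ * mke D (D.w D.wR) := by
      rw [Strip.xR, map_mul, map_inv]
    have eyR : mke D D.yR = (mke D (D.b D.bR))⁻¹ * mke D (D.b D.bot) := by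
      rw [Strip.yR, map_mul, map_inv]
    have et : mke D D.t = (mke D D.yR)⁻¹ * mke D D.xR * mke D D.s := by
      rw [Strip.t, map_mul, map_mul, map_inv]
    have et₁ : mke D D.t₁ = mke D D.xR * (mke D D.yR)⁻¹ * mke D D.s := by
      rw [Strip.t₁, map_mul, map_mul, map_inv]
    rw [et, et₁, exL, eyL, exR, eyR]
    refine ⟨key.1, fun r h1 h2 h3 h4 h5 => fix_gens ρ ?_⟩
    obtain ⟨k1, k2⟩ := key.2 r h1 h2 h3 h4
    have hw0 : mke D (D.w D.top) = 1 := one D (Or.inl rfl)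
    have hb0 : mke D (D.b D.bot) = 1 := one D (Or.inr (Or.inl rfl))
    rintro (v | v | ⟨⟩)
    · have := k1 v
      simp only [hw0] at this
      refine this.trans ?_
      show ρ 1 r = r
      rw [map_one]; rfl
    · have := k2 v
      simp only [hb0] at this
      refine this.trans ?_
      show ρ 1 r = r
      rw [map_one]; rfl
    · exact h5
  · intro r c
    have h := hs c
    rw [map_inv] at h
    have h1 := dir_of_scap (act ρ) h r
    simpa only [Strip.u, Strip.v, map_mul, map_inv] using h1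
  · have h1 := one D (Or.inr (Or.inr (Or.inr (Or.inl rfl))))
    simpa only [Strip.xL, Strip.xR, map_mul, map_inv] using h1
  · have h1 := one D (Or.inr (Or.inr (Or.inr (Or.inr (Or.inl rfl)))))
    simpa only [Strip.yL, Strip.yR, map_mul, map_inv] using h1

theorem caps {X : Type u} [CompleteLinearOrder X]
    (ρ : PresentedGroup D.relators →* (X ≃o X))
    (hs : ∀ i : Fin (D.m + 1), i ≠ 0 → SCap (ρ (PresentedGroup.mk (enc D).rel ((enc D).x i)))
      (ρ (PresentedGroup.mk (enc D).rel ((enc D).e i)))) (c : Fin D.m) :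
    SCap (ρ (mke D (D.u c))) (ρ (mke D (D.v c)⁻¹)) := hs c.succ (Fin.succ_ne_zero c)

theorem ok : BlockS.{u} (m := D.m) (enc D).rel (enc D).x (enc D).e True := by
  refine ⟨fun c => ?_, fun X _ ρ _ hs p hx he => ?_, fun X _ ρ h0 _ hs g p => ?_⟩
  · refine Fin.cases ?_ (fun c => ?_) c
    · show Commute (mke D D.t) (mke D D.t₁)
      have h := one D (w := D.t * D.t₁ * D.t⁻¹ * D.t₁⁻¹)
        (Or.inr (Or.inr (Or.inr (Or.inr (Or.inr rfl)))))
      rw [map_mul, map_mul, map_mul, map_inv, map_inv, mul_inv_eq_one,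
        mul_inv_eq_iff_eq_mul] at h
      exact h
    · show Commute (mke D (D.u c)) (mke D (D.v c)⁻¹)
      rw [map_inv]
      exact (comm D c).inv_right
  · obtain ⟨h1, h2⟩ := main D ρ (caps D ρ (hs trivial))
    obtain ⟨a1, a2, a3, a4, a5⟩ := h1.fixT hx he
    exact h2 p a4 a5 a1 a2 a3
  · obtain ⟨h1, h2⟩ := main D ρ (caps D ρ (hs trivial))
    have h0' : Cap (ρ (mke D D.t)) (ρ (mke D D.t₁)) := h0
    have h3 := h1.toSys (fun r hr => absurd (h0'.up r hr.1) (not_le.mpr hr.2))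
      (fun r hr => absurd (h0'.down r hr.1) (not_le.mpr hr.2))
    obtain ⟨t1, t2, t3⟩ := h3.trivial p
    have t4 : ρ (mke D D.xR) p = p := by
      have h4 := h1.rx p
      rwa [t1, t3] at h4
    have t5 : ρ (mke D D.yR) p = p := by
      have h4 := h1.ry p
      rwa [t2, t3] at h4
    exact h2 p t1 t2 t4 t5 t3 g

end EncOK

end Pool.Agent.K7.H4.LS
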