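import Mathlib

set_option autoImplicit false

/-!
# Trees of pieces: the definitions

A `Block` is a group presentation (of the fundamental group of a compact 3-manifold, the piece)
with a pair of marked words `x i`, `e i` for each boundary torus `i = 0, ..., m`; they commute and
form a basis of the fundamental group of the torus.
-/

namespace Pool.Agent.K7.H4.LS

open Relation

/-- A group presentation with pairs of marked words, one pair for each boundary torus
`0, ..., m`. -/
structure Block : Type 1 where
  m : ℕ
  gen : Type
  rel : Set (FreeGroup gen)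
  x : Fin (m + 1) → FreeGroup gen
  e : Fin (m + 1) → FreeGroup gen

/-! ### The Borromean rings -/

/-- Borromean rings: the meridians of the two arcs of circle `i` in the standard diagram of the
Borromean rings by three round circles, any two of which meet in one point inside and one point
outside the third circle, such that circle `i + 2` passes over circle `i` at both crossings.
`arc i false` belongs to the arc through the outer crossing with circle `i + 1`, `arc i true` to
the arc through the inner crossing with circle `i + 1`. -/
def arc (i : Fin 3) (b : Bool) : FreeGroup (Fin 3 × Bool) := FreeGroup.of (i, b)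

/-- Borromean rings: the (preferred, 0-framed) longitude of circle `i` that starts on the arc
`arc i false`; it passes under the inner and then under the outer arc of circle `i + 2`, with
opposite signs. -/
def longitude (i : Fin 3) : FreeGroup (Fin 3 × Bool) :=
  arc (i + 2) true * (arc (i + 2) false)⁻¹

/-- Borromean rings: the Wirtinger relators of the crossings of circle `i + 2` and circle `i`. -/
def borRel : Set (FreeGroup (Fin 3 × Bool)) :=
  {w | ∃ i : Fin 3,
      w = (arc (i + 2) true)⁻¹ * arc i false * arc (i + 2) true * (arc i true)⁻¹ ∨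
      w = arc (i + 2) false * arc i true * (arc (i + 2) false)⁻¹ * (arc i false)⁻¹}

/-- The exterior of the Borromean rings; the marked words are the inverse of the meridian and
its product with the longitude. -/
@[reducible] def bor : Block where
  m := 2
  gen := Fin 3 × Bool
  rel := borRel
  x := fun i => (arc i false)⁻¹
  e := fun i => (arc i false)⁻¹ * longitude i

/-! ### Products -/

/-- The boundary curves of the sphere with `k + 3` holes. -/
def curve {k : ℕ} (i : Fin (k + 3)) : FreeGroup (Fin (k + 3) ⊕ Unit) := FreeGroup.of (Sum.inl i)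

/-- The fibre. -/
def fibre {k : ℕ} : FreeGroup (Fin (k + 3) ⊕ Unit) := FreeGroup.of (Sum.inr ())

/-- The fibre is central and the product of the boundary curves is `1`. -/
def seifRel (k : ℕ) : Set (FreeGroup (Fin (k + 3) ⊕ Unit)) :=
  {w | (∃ i : Fin (k + 3), w = fibre * curve i * fibre⁻¹ * (curve i)⁻¹) ∨
    w = (List.ofFn (curve (k := k))).prod}

/-- The product of the circle and a sphere with `k + 3` holes; the marked words are the fibre and
the inverse of the boundary curve. -/
@[reducible] def seif (k : ℕ) : Block where
  m := k + 2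
  gen := Fin (k + 3) ⊕ Unit
  rel := seifRel k
  x := fun _ => fibre
  e := fun i => (curve i)⁻¹

/-! ### Alternating diagrams -/

/-- The corner `(c, false)` of a colour is the first corner of that colour at the crossing `c`, the
corner `(c, true)` is the second one. `cAt v₁ v₂ k` is the region at the corner `k`. -/
def cAt {V C : Type} (v₁ v₂ : C → V) (k : C × Bool) : V := if k.2 then v₂ k.1 else v₁ k.1

/-- The region of the same colour on the opposite side of the crossing. -/
def cOpp {V C : Type} (v₁ v₂ : C → V) (k : C × Bool) : V := if k.2 then v₁ k.1 else v₂ k.1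

/-- The list of corners leads from the neighbouring region `a` to the neighbouring region `b`: each
corner is entered from the neighbour (of the other colour) at which the previous one was left. -/
def Path {E C : Type} (e₁ e₂ : C → E) : E → List (C × Bool) → E → Prop
  | a, [], b => a = b
  | a, k :: l, b => cOpp e₁ e₂ k = a ∧ Path e₁ e₂ (cAt e₁ e₂ k) l b

/-- Two regions of the same colour are opposite to each other at some crossing. -/
def Adj {V C : Type} (v₁ v₂ : C → V) (a b : V) : Prop :=
  ∃ k : C × Bool, cAt v₁ v₂ k = a ∧ cOpp v₁ v₂ k = b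

/-- A connected checkerboard coloured alternating diagram on the sphere, with crossings
`0, ..., n`. The corners of a crossing are `w₁, b₁, w₂, b₂` in counterclockwise order, where the
overpass separates `w₁, b₁` from `w₂, b₂`. `starW v` is the list of the corners of the white region
`v` as they are met along its boundary (clockwise; for the black ones counterclockwise). `g` and `h`
are two neighbouring regions. The crossing `0` is not nugatory. -/
structure Closed where
  n : ℕ
  /-- white regions -/
  W : Type
  /-- black regions -/
  B : Type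
  finW : Finite W
  finB : Finite B
  w₁ : Fin (n + 1) → W
  b₁ : Fin (n + 1) → B
  w₂ : Fin (n + 1) → W
  b₂ : Fin (n + 1) → B
  starW : W → List (Fin (n + 1) × Bool)
  starB : B → List (Fin (n + 1) × Bool)
  memW : ∀ v k, k ∈ starW v ↔ cAt w₁ w₂ k = v
  memB : ∀ v k, k ∈ starB v ↔ cAt b₁ b₂ k = v
  nodupW : ∀ v, (starW v).Nodup
  nodupB : ∀ v, (starB v).Nodup
  faceW : ∀ v, ∃ a, Path b₁ b₂ a (starW v) a
  faceB : ∀ v, ∃ a, Path w₁ w₂ a (starB v) a
  g : W
  h : B
  /-- the regions `g`, `h` are neighbours -/
  adjW : Path b₁ b₂ h (starW g) h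
  adjB : Path w₁ w₂ g (starB h) g
  /-- the diagram is connected -/
  conn : ∀ v, ReflTransGen (Adj w₁ w₂) v g
  /-- the diagram is connected and the crossing `0` is not nugatory -/
  conn₀ : ∀ v, ReflTransGen (fun a b => ∃ k : Fin (n + 1) × Bool, k.1 ≠ 0 ∧ cAt b₁ b₂ k = a ∧
    cOpp b₁ b₂ k = b) v h

namespace Closed

variable (D : Closed)

/-- Generators: the regions. -/
abbrev Gen : Type := D.W ⊕ D.B

/-- the generator of a white region -/
def w (v : D.W) : FreeGroup D.Gen := FreeGroup.of (Sum.inl v)

/-- the generator of a black region -/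
def b (v : D.B) : FreeGroup D.Gen := FreeGroup.of (Sum.inr v)

/-- `b₂⁻¹ b₁` at the crossing `c` -/
def u (c : Fin (D.n + 1)) : FreeGroup D.Gen := (D.b (D.b₂ c))⁻¹ * D.b (D.b₁ c)

/-- `w₁⁻¹ w₂` at the crossing `c` -/
def v (c : Fin (D.n + 1)) : FreeGroup D.Gen := (D.w (D.w₁ c))⁻¹ * D.w (D.w₂ c)

/-- The relators: `g` and `h` are trivial, and `u c`, `v c` commute. -/
def relators : Set (FreeGroup D.Gen) :=
  {r | r = D.w D.g ∨ r = D.b D.h ∨ ∃ c, r = D.u c * D.v c * (D.u c)⁻¹ * (D.v c)⁻¹}

end Closed

/-- The double branched cover of the complement of small balls around all crossings of an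
alternating link diagram. The torus `c` is the double branched cover of the sphere around the
crossing `c`; `u c` and `v c` are the lifts of the curves on this sphere that separate the two black
(white) corners. The filling `u ^ q = v ^ p` puts the rational tangle `p / q` in the place of the
crossing, `p = q = 1` is the crossing itself. The marked words are `u c` and `(v c)⁻¹`. -/
@[reducible] def net (D : Closed) : Block where
  m := D.n
  gen := D.Gen
  rel := D.relators
  x := fun c => D.u c
  e := fun c => (D.v c)⁻¹

/-! ### Alternating diagrams with an encircled triple of strands -/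

/-- One colour of a diagram in a strip. `g` is the region along the top (or bottom) side of the
strip, `vL`, `vR` are the regions of this colour at the left and right side, `eg, eL, eR` are the
corresponding regions of the other colour. `star v` is the list of the corners of the region `v` as
they are met along its boundary (clockwise for the white regions, counterclockwise for the black
ones). -/
structure Colour {V E C : Type} (v₁ v₂ : C → V) (e₁ e₂ : C → E) (g vL vR : V) (eg eL eR : E)
    (star : V → List (C × Bool)) : Prop where
  mem : ∀ v k, k ∈ star v ↔ cAt v₁ v₂ k = v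
  nodup : ∀ v, (star v).Nodup
  inner : ∀ v, v ≠ g → v ≠ vL → v ≠ vR → ∃ a, Path e₁ e₂ a (star v) a
  ground : Path e₁ e₂ eR (star g) eL
  left : Path e₁ e₂ eL (star vL) eg
  right : Path e₁ e₂ eg (star vR) eR
  /-- the checkerboard graph is connected -/
  conn : ∀ v, ReflTransGen (Adj v₁ v₂) v g
  /-- no arc in the strip from top to bottom crosses only one strand -/
  link : ReflTransGen (fun a b => Adj v₁ v₂ a b ∧ a ≠ g ∧ b ≠ g) vL vR

/-- A checkerboard coloured alternating diagram in a strip with three strands at the left side and
three strands at the right side, with `m` crossings. (Close the strip to an annulus; the circle `A`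
runs along the arc where the two sides are joined and encircles three strands.) -/
structure Strip where
  m : ℕ
  /-- white regions -/
  W : Type
  /-- black regions -/
  B : Type
  finW : Finite W
  finB : Finite B
  /-- the corners of a crossing are `w₁, b₁, w₂, b₂`, in counterclockwise order -/
  w₁ : Fin m → W
  b₁ : Fin m → B
  w₂ : Fin m → W
  b₂ : Fin m → B
  /-- the regions at the sides of the strip -/
  top : W
  bL : B
  wL : W
  bot : B
  bR : B
  wR : W
  starW : W → List (Fin m × Bool)
  starB : B → List (Fin m × Bool)
  white : Colour w₁ w₂ b₁ b₂ top wL wR bot bL bR starW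
  black : Colour b₁ b₂ w₁ w₂ bot bL bR top wL wR starB

namespace Strip

variable (D : Strip)

/-- Generators: the regions and the stable letter. -/
abbrev Gen : Type := D.W ⊕ D.B ⊕ Unit

/-- the generator of a white region -/
def w (v : D.W) : FreeGroup D.Gen := FreeGroup.of (Sum.inl v)

/-- the generator of a black region -/
def b (v : D.B) : FreeGroup D.Gen := FreeGroup.of (Sum.inr (Sum.inl v))

/-- the stable letter -/
def s : FreeGroup D.Gen := FreeGroup.of (Sum.inr (Sum.inr ()))

/-- `b₂⁻¹ b₁` at the crossing `c` -/
def u (c : Fin D.m) : FreeGroup D.Gen := (D.b (D.b₂ c))⁻¹ * D.b (D.b₁ c)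

/-- `w₁⁻¹ w₂` at the crossing `c` -/
def v (c : Fin D.m) : FreeGroup D.Gen := (D.w (D.w₁ c))⁻¹ * D.w (D.w₂ c)

def xL : FreeGroup D.Gen := (D.w D.top)⁻¹ * D.w D.wL
def yL : FreeGroup D.Gen := (D.b D.bL)⁻¹ * D.b D.bot
def xR : FreeGroup D.Gen := (D.w D.top)⁻¹ * D.w D.wR
def yR : FreeGroup D.Gen := (D.b D.bR)⁻¹ * D.b D.bot

/-- the two peripheral elements of the circle `A`: the lifts of the products of its meridian and the
inverse of its longitude (its longitude) -/
def t : FreeGroup D.Gen := D.yR⁻¹ * D.xR * D.s
def t₁ : FreeGroup D.Gen := D.xR * D.yR⁻¹ * D.s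

/-- The relators: `top` and `bot` are trivial, `u c`, `v c` commute, the stable letter conjugates
`xL, yL` to the inverses of `xR, yR`, and `t`, `t₁` commute. -/
def relators : Set (FreeGroup D.Gen) :=
  {r | r = D.w D.top ∨ r = D.b D.bot ∨ (∃ c, r = D.u c * D.v c * (D.u c)⁻¹ * (D.v c)⁻¹) ∨
    r = D.s * D.xL * D.s⁻¹ * D.xR ∨ r = D.s * D.yL * D.s⁻¹ * D.yR ∨
    r = D.t * D.t₁ * D.t⁻¹ * D.t₁⁻¹}

end Strip

/-- The double cover of the complement of the circle `A` and of small balls around all crossings,
branched along the link, whose covering involution is nontrivial over the meridian of `A`. The torus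
`0` is the one of the circle `A`, the torus `c + 1` is the one of the crossing `c`. -/
@[reducible] def enc (D : Strip) : Block where
  m := D.m
  gen := D.Gen
  rel := D.relators
  x := Fin.cons D.t fun c => D.u c
  e := Fin.cons D.t₁ fun c => (D.v c)⁻¹

/-! ### Knots with property (D) -/

/-- The root-closed, conjugacy-closed submonoid generated by `S`. -/
inductive RootConj {G : Type} [Group G] (S : Set G) : G → Prop
  | base {g : G} : g ∈ S → RootConj S g
  | one : RootConj S 1
  | mul {g h : G} : RootConj S g → RootConj S h → RootConj S (g * h)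
  | conj {g : G} (h : G) : RootConj S g → RootConj S (h * g * h⁻¹)
  | root {g : G} (k : ℕ) : 1 ≤ k → RootConj S (g ^ k) → RootConj S g

/-- Nie's property (D) for a knot with group `G`, meridian `μ`, longitude `l` and `n = 2g - 1`. -/
structure PropertyD (G : Type) [Group G] (μ l : G) (n : ℤ) : Prop where
  countable : Countable G
  comm : Commute μ l
  /-- for every action on the real line, common fixed points of `μ` and `l` are global fixed
  points -/
  fixed : ∀ (ρ : G →* (ℝ ≃o ℝ)) (s : ℝ), ρ μ s = s → ρ l s = s → ∀ g, ρ g s = s
  mem : RootConj {μ ^ n * l, μ⁻¹} μ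

/-! ### Trees of pieces -/

/-- The pieces. -/
inductive IsPiece : Block → Prop
  | bor : IsPiece bor
  | seif (k : ℕ) : IsPiece (seif k)
  | enc (D : Strip) : IsPiece (enc D)
  | net (D : Closed) : IsPiece (net D)

/-- `Tree G x e`: the group `G` of a manifold with one boundary torus with basis `x, e` that is
either the exterior of a knot with Nie's property (D), or a piece `K` with manifolds of this kind
(with groups `N i`, for the tori `i ∈ S`) or solid tori (for `i ∉ S`) glued to the tori
`i ≠ 0`. -/
inductive Tree : (G : Type) → [Group G] → G → G → Prop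
  | knot {G : Type} [Group G] {μ l : G} {n : ℤ} (h : PropertyD G μ l n) : Tree G μ (μ ^ n * l)
  | piece {G : Type} [Group G] (K : Block) (hK : IsPiece K) (j : PresentedGroup K.rel →* G)
      (N : Fin (K.m + 1) → Type) [∀ i, Group (N i)] (js : ∀ i, N i →* G) (x e : ∀ i, N i)
      (S : Set (Fin (K.m + 1))) (hS : ∀ i ∈ S, i ≠ 0 → Tree (N i) (x i) (e i))
      (glue : ∀ i ∈ S, i ≠ 0 → ∃ A B C D : ℕ, 1 ≤ A ∧ 1 ≤ B ∧ 1 ≤ C ∧ 1 ≤ D ∧
        j (PresentedGroup.mk K.rel (K.x i)) = js i (x i ^ A * e i ^ B) ∧
        j (PresentedGroup.mk K.rel (K.e i)) = js i (x i ^ C * e i ^ D)⁻¹)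
      (solid : ∀ i, i ∉ S → i ≠ 0 → ∃ p q : ℕ, 1 ≤ q ∧ (K ≠ bor → 1 ≤ p) ∧
        j (PresentedGroup.mk K.rel (K.x i)) ^ p * j (PresentedGroup.mk K.rel (K.e i)) ^ q = 1)
      (gen : j.range ⊔ ⨆ i ∈ {i | i ∈ S ∧ i ≠ 0}, (js i).range = ⊤) :
      Tree G (j (PresentedGroup.mk K.rel (K.x 0))) (j (PresentedGroup.mk K.rel (K.e 0)))

/-- `Filled K G`: the group `G` of a closed manifold that is the piece `K` with manifolds of the
class `Tree` (for the tori `i ∈ S`) or solid tori (for `i ∉ S`) glued to all boundary tori. -/
structure Filled (K : Block) (G : Type) [Group G] where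
  j : PresentedGroup K.rel →* G
  N : Fin (K.m + 1) → Type
  [group : ∀ i, Group (N i)]
  js : ∀ i, N i →* G
  x : ∀ i, N i
  e : ∀ i, N i
  S : Set (Fin (K.m + 1))
  tree : ∀ i ∈ S, Tree (N i) (x i) (e i)
  glue : ∀ i ∈ S, ∃ A B C D : ℕ, 1 ≤ A ∧ 1 ≤ B ∧ 1 ≤ C ∧ 1 ≤ D ∧
    j (PresentedGroup.mk K.rel (K.x i)) = js i (x i ^ A * e i ^ B) ∧
    j (PresentedGroup.mk K.rel (K.e i)) = js i (x i ^ C * e i ^ D)⁻¹
  solid : ∀ i, i ∉ S → ∃ p q : ℕ, 1 ≤ q ∧ (K ≠ bor → 1 ≤ p) ∧
    j (PresentedGroup.mk K.rel (K.x i)) ^ p * j (PresentedGroup.mk K.rel (K.e i)) ^ q = 1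
  gen : j.range ⊔ ⨆ i ∈ S, (js i).range = ⊤

/-! ### Orders -/

/-- A nontrivial group is left-orderable if it carries a strict total order that is invariant
under left multiplication. -/
def LeftOrderable (G : Type) [Group G] : Prop :=
  Nontrivial G ∧ ∃ lt : G → G → Prop, IsStrictTotalOrder G lt ∧
    ∀ a b c : G, lt a b ↔ lt (c * a) (c * b)

/-- Every homomorphism from `G` to a left-orderable group is trivial, and `G` is not
left-orderable. -/
def NoOrders (G : Type) [Group G] : Prop :=
  ¬ LeftOrderable G ∧
    ∀ (H : Type) [Group H], LeftOrderable H → ∀ f : G →* H, ∀ g, f g = 1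

end Pool.Agent.K7.H4.LS
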