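import Pool.Agent.K7.H4.LS.Ok
import Pool.Agent.Results.MP_9ae2f3_gt.GluedKnotExteriors

set_option autoImplicit false

/-!
# Trees of pieces
-/

namespace Pool.Agent.K7.H4.LS

open Pool.Agent.R649.BT hiding Block

universe u

attribute [instance] Filled.group

theorem RootConj.old {G : Type} [Group G] {S : Set G} {g : G} (h : RootConj S g) :
    Pool.Agent.Results.MP_9ae2f3_gt.GluedKnotExteriors.RootConj S g := by
  induction h with
  | base h => exact .base h
  | one => exact .one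
  | mul _ _ h1 h2 => exact .mul h1 h2
  | conj k _ h => exact .conj k h
  | root k hk _ h => exact .root k hk h

theorem PropertyD.piece {G : Type} [Group G] {μ l : G} {n : ℤ} (h : PropertyD G μ l n) :
    Piece.{u} G μ (μ⁻¹ * (μ ^ n * l)) :=
  Pool.Agent.Results.MP_9ae2f3_gt.GluedKnotExteriors.PropertyD.piece
    ⟨h.countable, h.comm, h.fixed, h.mem.old⟩

theorem noOrders {G : Type} [Group G] (h : ∀ (X : Type) [CompleteLinearOrder X]
    (ρ : G →* (X ≃o X)) (g : G) (p : X), ρ g p = p) : NoOrders G :=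
  Pool.Agent.Results.MP_9ae2f3_gt.GluedKnotExteriors.noOrders h

/-- The properties of the pieces. -/
theorem IsPiece.ok {K : Block} (h : IsPiece K) :
    BlockS.{u} K.rel K.x K.e (K ≠ Pool.Agent.K7.H4.LS.bor) := by
  cases h with
  | bor =>
    exact BlockS.of_ok BorOK.ok.{u} fun hf => hf.elim
  | seif k =>
    have h := SeifOK.ok.{u} k
    have hk : Pool.Agent.K7.H4.LS.seif k ≠ Pool.Agent.K7.H4.LS.bor := by
      intro h1
      have h2 := congrArg Block.gen h1
      have h3 : Fintype.card (Fin (k + 3) ⊕ Unit) = Fintype.card (Fin 3 × Bool) :=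
        Fintype.card_congr (Equiv.cast h2)
      have h4 := congrArg Block.m h1
      simp at h3 h4
      omega
    exact BlockS.of_ok h fun _ => hk
  | enc D =>
    by_cases hD : Pool.Agent.K7.H4.LS.enc D = Pool.Agent.K7.H4.LS.bor
    · rw [hD]
      exact BlockS.of_ok BorOK.ok.{u} fun hf => hf.elim
    · exact ⟨(EncOK.ok.{u} D).comm, fun X _ ρ h1 h2 => (EncOK.ok.{u} D).opn X ρ h1
        fun _ => h2 hD, fun X _ ρ h0 h1 h2 => (EncOK.ok.{u} D).closed X ρ h0 h1
        fun _ => h2 hD⟩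
  | net D =>
    by_cases hD : Pool.Agent.K7.H4.LS.net D = Pool.Agent.K7.H4.LS.bor
    · rw [hD]
      exact BlockS.of_ok BorOK.ok.{u} fun hf => hf.elim
    · exact ⟨(NetOK.ok.{u} D).comm, fun X _ ρ h1 h2 => (NetOK.ok.{u} D).opn X ρ h1
        fun _ => h2 hD, fun X _ ρ h0 h1 h2 => (NetOK.ok.{u} D).closed X ρ h0 h1
        fun _ => h2 hD⟩

/-- Caps from trees. -/
theorem caps_of_tree {K : Block} {G N : Type} [Group G] [Group N]
    (j : PresentedGroup K.rel →* G) (js : N →* G) {x e : N} (i : Fin (K.m + 1))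
    (hT : TameE.{u} N x e) {A B C D : ℕ} (hA : 1 ≤ A) (hB : 1 ≤ B) (hC : 1 ≤ C) (hD : 1 ≤ D)
    (g1 : j (PresentedGroup.mk K.rel (K.x i)) = js (x ^ A * e ^ B))
    (g2 : j (PresentedGroup.mk K.rel (K.e i)) = js (x ^ C * e ^ D)⁻¹)
    {X : Type u} [CompleteLinearOrder X] (ρ : G →* (X ≃o X)) :
    SCap (ρ (j (PresentedGroup.mk K.rel (K.x i)))) (ρ (j (PresentedGroup.mk K.rel (K.e i)))) ∧
      ∀ p, ρ (j (PresentedGroup.mk K.rel (K.x i))) p = p → ∀ g, ρ (js g) p = p := by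
  rw [g1, g2]
  exact ⟨hT.scap X (ρ.comp js) A B C D hA hB hC hD,
    fun p hp g => hT.fix X (ρ.comp js) A B hA hB p hp g⟩

theorem Tree.piece' {G : Type} [Group G] {x e : G} (h : Tree G x e) :
    Commute x e ∧ Piece.{u} G x (x⁻¹ * e) := by
  induction h with
  | @knot G _ μ l n h => exact ⟨((Commute.refl μ).zpow_right n).mul_right h.comm, h.piece⟩
  | @piece G _ K hK j N _ js x e S hS glue solid gen ih =>
    have hb := hK.ok.{u}
    have hcm : ∀ i, Commute (j (PresentedGroup.mk K.rel (K.x i)))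
        (j (PresentedGroup.mk K.rel (K.e i))) := fun i => (hb.comm i).map j
    have caps : ∀ (X : Type u) [CompleteLinearOrder X] (ρ : G →* (X ≃o X)) (i : Fin (K.m + 1)), i ≠ 0 →
        Cap (ρ (j (PresentedGroup.mk K.rel (K.x i)))) (ρ (j (PresentedGroup.mk K.rel (K.e i)))) ∧
        (K ≠ bor → SCap (ρ (j (PresentedGroup.mk K.rel (K.x i))))
          (ρ (j (PresentedGroup.mk K.rel (K.e i))))) ∧
        (i ∈ S → ∀ p, ρ (j (PresentedGroup.mk K.rel (K.x i))) p = p →
          ∀ g, ρ (js i g) p = p) := by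
      intro X _ ρ i h0
      by_cases hi : i ∈ S
      · obtain ⟨A, B, C, D, hA, hB, hC, hD, g1, g2⟩ := glue i hi h0
        obtain ⟨k1, k2⟩ := ih i hi h0
        obtain ⟨h3, h4⟩ := caps_of_tree j (js i) i (k2.tameE k1) hA hB hC hD g1 g2 ρ
        exact ⟨h3.cap, fun _ => h3, fun _ => h4⟩
      · obtain ⟨p, q, hq, hp, hr⟩ := solid i hi h0
        have hr' := congrArg ρ hr
        rw [map_mul, map_pow, map_pow, map_one] at hr'
        obtain ⟨c1, c2⟩ := cap_solid ((hcm i).map ρ) hq hr'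
        exact ⟨c1, fun hk => c2 (hp hk), fun hi' => absurd hi' hi⟩
    have hgen : ∀ (X : Type u) [CompleteLinearOrder X] (ρ : G →* (X ≃o X)) (p : X),
        (∀ g, ρ (j g) p = p) → ∀ g, ρ g p = p := by
      intro X _ ρ p hp g
      have hle : (⊤ : Subgroup G) ≤ (MulAction.stabilizer (X ≃o X) p).comap ρ := by
        rw [← gen, sup_le_iff]
        refine ⟨?_, iSup₂_le fun i hi => ?_⟩
        · rintro _ ⟨g, rfl⟩; exact hp g
        · rintro _ ⟨g, rfl⟩; exact (caps X ρ i hi.2).2.2 hi.1 p (hp _) g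
      exact hle (Subgroup.mem_top g)
    refine ⟨hcm 0, (Commute.refl _).inv_right.mul_right (hcm 0), fun X _ ρ p hx ha => ?_,
      fun X _ ρ hd g p => ?_⟩
    · refine hgen X ρ p (hb.opn X (ρ.comp j) (fun i hi => (caps X ρ i hi).1)
        (fun hk i hi => (caps X ρ i hi).2.1 hk) p hx ?_)
      rw [map_mul, map_inv] at ha
      have h2 := congrArg (ρ (j (PresentedGroup.mk K.rel (K.x 0)))) ha
      have h3 : ρ (j (PresentedGroup.mk K.rel (K.x 0)))
          ((ρ (j (PresentedGroup.mk K.rel (K.x 0))))⁻¹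
            (ρ (j (PresentedGroup.mk K.rel (K.e 0))) p)) =
          ρ (j (PresentedGroup.mk K.rel (K.e 0))) p :=
        (ρ (j (PresentedGroup.mk K.rel (K.x 0)))).apply_symm_apply _
      rw [RelIso.mul_apply, h3, hx] at h2
      exact h2
    · refine hgen X ρ p (fun g => ?_) g
      have h0 := Cap.of_dom hd
      rw [← map_mul, mul_inv_cancel_left] at h0
      exact hb.closed X (ρ.comp j) h0 (fun i hi => (caps X ρ i hi).1)
        (fun h i hi => (caps X ρ i hi).2.1 h) g p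

/-- Every action of the group of a filled piece is trivial. -/
theorem Filled.act_trivial {K : Block} (hK : IsPiece K) {G : Type} [Group G] (F : Filled K G)
    {X : Type u} [CompleteLinearOrder X] (ρ : G →* (X ≃o X)) (g : G) (p : X) : ρ g p = p := by
  have hb := hK.ok.{u}
  have hcm : ∀ i, Commute (F.j (PresentedGroup.mk K.rel (K.x i)))
      (F.j (PresentedGroup.mk K.rel (K.e i))) := fun i => (hb.comm i).map F.j
  have caps : ∀ i : Fin (K.m + 1),
      Cap (ρ (F.j (PresentedGroup.mk K.rel (K.x i))))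
        (ρ (F.j (PresentedGroup.mk K.rel (K.e i)))) ∧
      (K ≠ bor → SCap (ρ (F.j (PresentedGroup.mk K.rel (K.x i))))
        (ρ (F.j (PresentedGroup.mk K.rel (K.e i))))) ∧
      (i ∈ F.S → ∀ p, ρ (F.j (PresentedGroup.mk K.rel (K.x i))) p = p →
        ∀ g, ρ (F.js i g) p = p) := by
    intro i
    by_cases hi : i ∈ F.S
    · obtain ⟨A, B, C, D, hA, hB, hC, hD, g1, g2⟩ := F.glue i hi
      obtain ⟨k1, k2⟩ := (F.tree i hi).piece'.{u}
      obtain ⟨h3, h4⟩ := caps_of_tree F.j (F.js i) i (k2.tameE k1) hA hB hC hD g1 g2 ρ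
      exact ⟨h3.cap, fun _ => h3, fun _ => h4⟩
    · obtain ⟨p, q, hq, hp, hr⟩ := F.solid i hi
      have hr' := congrArg ρ hr
      rw [map_mul, map_pow, map_pow, map_one] at hr'
      obtain ⟨c1, c2⟩ := cap_solid ((hcm i).map ρ) hq hr'
      exact ⟨c1, fun hk => c2 (hp hk), fun hi' => absurd hi' hi⟩
  have hj : ∀ g p, ρ (F.j g) p = p :=
    hb.closed X (ρ.comp F.j) (caps 0).1 (fun i _ => (caps i).1) (fun h i _ => (caps i).2.1 h)
  have hle : (⊤ : Subgroup G) ≤ (MulAction.stabilizer (X ≃o X) p).comap ρ := by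
    rw [← F.gen, sup_le_iff]
    refine ⟨?_, iSup₂_le fun i hi => ?_⟩
    · rintro _ ⟨g, rfl⟩; exact hj g p
    · rintro _ ⟨g, rfl⟩; exact (caps i).2.2 hi p (hj _ p) g
  exact hle (Subgroup.mem_top g)

theorem tree_knot_trivial {G₁ N G : Type} [Group G₁] [Group N] [Group G] {μ l : G₁} {n : ℤ}
    (h₁ : PropertyD G₁ μ l n) {x e : N} (hN : Tree N x e) {j₁ : G₁ →* G} {j₂ : N →* G}
    (hgen : j₁.range ⊔ j₂.range = ⊤) {A B C D : ℕ} (hA : 1 ≤ A) (hB : 1 ≤ B) (hC : 1 ≤ C)
    (hD : 1 ≤ D) (g1 : j₁ μ = j₂ (x ^ A * e ^ B)) (g2 : j₁ (μ ^ n * l) = j₂ (x ^ C * e ^ D)⁻¹)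
    {X : Type u} [CompleteLinearOrder X] (ρ : G →* (X ≃o X)) (g : G) (p : X) : ρ g p = p := by
  obtain ⟨k1, k2⟩ := hN.piece'.{u}
  have hT : TameE.{u} N x e := k2.tameE k1
  have h3 := hT.scap X (ρ.comp j₂) A B C D hA hB hC hD
  have t1 : ∀ g p, ρ (j₁ g) p = p := by
    refine (h₁.piece.{u}).closed X (ρ.comp j₁) ?_
    have h5 : Cap (ρ (j₁ μ)) (ρ (j₁ (μ ^ n * l))) := by rw [g1, g2]; exact h3.cap
    have h6 := h5.dom
    rw [← map_inv, ← map_mul, ← map_inv, ← map_mul] at h6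
    exact h6
  have t2 : ∀ g p, ρ (j₂ g) p = p := by
    intro g p
    refine hT.fix X (ρ.comp j₂) A B hA hB p ?_ g
    have h7 := t1 μ p
    rw [g1] at h7
    exact h7
  have hle : (⊤ : Subgroup G) ≤ (MulAction.stabilizer (X ≃o X) p).comap ρ := by
    rw [← hgen, sup_le_iff]
    constructor
    · rintro _ ⟨g, rfl⟩; exact t1 g p
    · rintro _ ⟨g, rfl⟩; exact t2 g p
  exact hle (Subgroup.mem_top g)

end Pool.Agent.K7.H4.LS
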